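import Pool.Agent.H39.WD2

set_option autoImplicit false

namespace Pool.Agent.Results.MP_b40933_gt.Counter
open Set Filter Topology Pool.Agent.H39.WD

/-- w-Delta spaces. -/
def WDelta (X : Type) [TopologicalSpace X] : Prop :=
  ∃ 𝒢 : ℕ → Set (Set X), (∀ n, (∀ G ∈ 𝒢 n, IsOpen G) ∧ ⋃₀ 𝒢 n = univ) ∧
    ∀ (x : X) (xs : ℕ → X), (∀ n, xs n ∈ ⋃₀ {G ∈ 𝒢 n | x ∈ G}) →
      ∃ y, MapClusterPt y atTop xs

theorem lift {S : Set YY} (hS : IsClosed S) {xs : ℕ → S} (h : Cl fun n => (xs n).1) :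
    ∃ a, MapClusterPt a atTop xs := by
  obtain ⟨a, ha⟩ := h
  have h1 : a ∈ S := hS.mem_of_mapClusterPt ha (Eventually.of_forall fun n => (xs n).2)
  obtain ⟨V, h2, h3⟩ := mapClusterPt_iff_ultrafilter.1 ha
  exact ⟨⟨a, h1⟩, mapClusterPt_iff_ultrafilter.2 ⟨V, h2, tendsto_subtype_rng.2 h3⟩⟩

theorem wd : WDelta (X1 ⊕ X2) := by
  refine ⟨fun n => {G | G = range Sum.inl ∨
    ∃ A, Sm n A ∧ G = Sum.inr '' {y : X2 | y.1.1 (.inl A) = true}}, fun n => ⟨?_, ?_⟩, ?_⟩
  · rintro _ (rfl | ⟨A, -, rfl⟩)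
    · exact isOpen_range_inl
    · exact isOpenMap_inr _ ((isOpen_discrete {true}).preimage
        ((cont (.inl A)).comp continuous_subtype_val))
  · refine eq_univ_of_forall ?_
    rintro (a | a)
    · exact ⟨_, Or.inl rfl, a, rfl⟩
    · obtain ⟨A, h1, h2⟩ := cover2 n a.2
      exact ⟨_, Or.inr ⟨A, h1, rfl⟩, a, h2, rfl⟩
  · rintro (a | a) xs h
    · have : ∀ n, ∃ b, Sum.inl b = xs n := fun n => by
        obtain ⟨_, ⟨rfl | ⟨A, -, rfl⟩, h1⟩, h2⟩ := h n
        · exact h2
        · simp at h1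
      choose b hb using this
      obtain ⟨c, hc⟩ := lift closed1 (xs := b) (cl_X1 fun n => (b n).2)
      obtain rfl : Sum.inl ∘ b = xs := funext hb
      exact ⟨_, hc.continuousAt_comp continuous_inl.continuousAt⟩
    · have : ∀ n, ∃ b : X2, Sum.inr b = xs n ∧
          ∃ A, Sm n A ∧ a.1.1 (.inl A) = true ∧ b.1.1 (.inl A) = true := fun n => by
        obtain ⟨_, ⟨rfl | ⟨A, h0, rfl⟩, h1⟩, h2⟩ := h n
        · simp at h1
        · obtain ⟨b, h3, h4⟩ := h2
          obtain ⟨c, h5, h6⟩ := h1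
          cases h6
          exact ⟨b, h4, A, h0, h5, h3⟩
      choose b hb h1 using this
      obtain ⟨c, hc⟩ := lift closed2 (xs := b) (cl_X2 a.2 (fun n => (b n).2) h1)
      obtain rfl : Sum.inr ∘ b = xs := funext hb
      exact ⟨_, hc.continuousAt_comp continuous_inr.continuousAt⟩

/-- A perfect (even finite-to-one) image of a Tychonoff w-Delta space that is Tychonoff and
not w-Delta. -/
theorem result : ∃ (X Y : Type) (_ : TopologicalSpace X) (_ : TopologicalSpace Y) (f : X → Y),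
    T35Space X ∧ T35Space Y ∧ Continuous f ∧ IsClosedMap f ∧ Function.Surjective f ∧
    (∀ y, (f ⁻¹' {y}).Finite ∧ IsCompact (f ⁻¹' {y})) ∧ WDelta X ∧ ¬ WDelta Y := by
  have hf : ∀ y : YY, ((Sum.elim Subtype.val Subtype.val : X1 ⊕ X2 → YY) ⁻¹' {y}).Finite := by
    intro y
    refine ((((finite_singleton y).preimage Subtype.val_injective.injOn).image Sum.inl).union
      (((finite_singleton y).preimage Subtype.val_injective.injOn).image Sum.inr)).subset ?_
    rintro (a | a) h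
    · exact Or.inl ⟨a, h, rfl⟩
    · exact Or.inr ⟨a, h, rfl⟩
  refine ⟨X1 ⊕ X2, YY, inferInstance, inferInstance, Sum.elim Subtype.val Subtype.val, ?_,
    inferInstance, continuous_subtype_val.sumElim continuous_subtype_val,
    closed1.isClosedMap_subtype_val.sumElim closed2.isClosedMap_subtype_val, fun y => ?_,
    fun y => ⟨hf y, (hf y).isCompact⟩, wd, fun ⟨H, h1, h2⟩ => ?_⟩
  · let e : X1 ⊕ X2 → YY × Bool := Sum.elim (fun a => (a.1, false)) fun a => (a.1, true)
    have h1 : IsClosedEmbedding fun a : X1 => (a.1, false) :=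
      (IsClosedEmbedding.of_continuous_injective_isClosedMap (f := fun y : YY => (y, false))
        (by fun_prop) (Prod.mk_left_injective _) (isClosedMap_prodMk_right _)).comp
        closed1.isClosedEmbedding_subtypeVal
    have h2 : IsClosedEmbedding fun a : X2 => (a.1, true) :=
      (IsClosedEmbedding.of_continuous_injective_isClosedMap (f := fun y : YY => (y, true))
        (by fun_prop) (Prod.mk_left_injective _) (isClosedMap_prodMk_right _)).comp
        closed2.isClosedEmbedding_subtypeVal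
    exact (h1.sumElim h2 (h1.injective.sumElim h2.injective fun a b h => by
      cases (Prod.mk.inj h).2)).isEmbedding.t35Space
  · rcases cover y with h | h
    · exact ⟨.inl ⟨y, h⟩, rfl⟩
    · exact ⟨.inr ⟨y, h⟩, rfl⟩
  · obtain ⟨p, xs, h3, h4⟩ := bad H (fun n => (h1 n).1) fun n y => eq_univ_iff_forall.1 (h1 n).2 y
    exact h4 (h2 p xs fun n => (h3 n).imp fun G h => ⟨⟨h.1, h.2.1⟩, h.2.2⟩)

end Pool.Agent.Results.MP_b40933_gt.Counter
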